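import Pool.Agent.W744.GL.Stm

set_option autoImplicit false

open Metric Set Filter Topology Complex
open scoped ComplexConjugate

namespace Pool.Agent.W303.GL.AN

theorem lip (F : ℂ → ℂ) (S : Set ℂ) (C : ℝ) (hS : IsOpen S) (hd : DifferentiableOn ℂ F S)
    (hC : ∀ z ∈ S, ‖F z‖ ≤ C) (hC0 : 0 ≤ C) (z0 : ℂ) (r : ℝ) (hr : 0 < r)
    (hb : closedBall z0 (2 * r) ⊆ S) :
    LipschitzOnWith (C / r).toNNReal F (closedBall z0 r) := by
  have hsub : ∀ z ∈ closedBall z0 r, closedBall z r ⊆ S := by
    intro z hz w hw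
    apply hb
    rw [mem_closedBall] at *
    calc dist w z0 ≤ dist w z + dist z z0 := dist_triangle _ _ _
      _ ≤ 2 * r := by linarith
  have hCr : 0 ≤ C / r := div_nonneg hC0 hr.le
  have hder : ∀ z ∈ closedBall z0 r, ‖deriv F z‖ ≤ C / r := by
    intro z hz
    refine Complex.norm_deriv_le_of_forall_mem_sphere_norm_le hr ?_ fun w hw =>
      hC w (hsub z hz (sphere_subset_closedBall hw))
    exact (hd.mono (hsub z hz)).diffContOnCl_ball le_rfl
  have hda : ∀ z ∈ closedBall z0 r, DifferentiableAt ℂ F z := by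
    intro z hz
    exact hd.differentiableAt (hS.mem_nhds (hsub z hz (mem_closedBall_self hr.le)))
  refine LipschitzOnWith.of_dist_le_mul fun x hx y hy => ?_
  rw [Real.coe_toNNReal _ hCr, dist_eq_norm, dist_eq_norm]
  exact (convex_closedBall z0 r).norm_image_sub_le_of_norm_deriv_le hda hder hy hx

theorem main : Pool.Agent.W744.GL.S_AN := by
  intro ι U F S G C hS hd hC hG
  have hCne : ∀ z ∈ S, 0 ≤ C := by
    intro z hz
    obtain ⟨i⟩ : Nonempty ι := U.neBot.nonempty
    exact (norm_nonneg _).trans (hC i z hz)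
  have key : TendstoLocallyUniformlyOn F G U S := by
    intro u hu z0 hz0
    obtain ⟨R, hR, hRS⟩ := Metric.isOpen_iff.1 hS z0 hz0
    let r : ℝ := R / 4
    have hr : 0 < r := by positivity
    have hb : closedBall z0 (2 * r) ⊆ S :=
      (closedBall_subset_ball (by simp only [r]; linarith)).trans hRS
    have hL : ∀ i, LipschitzOnWith (C / r).toNNReal (F i) (closedBall z0 r) := fun i =>
      lip (F i) S C hS (hd i) (hC i) (hCne z0 hz0) z0 r hr hb
    have hE : EquicontinuousOn F (closedBall z0 r) :=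
      (LipschitzOnWith.uniformEquicontinuousOn F _ hL).equicontinuousOn
    have hK : IsCompact (closedBall z0 r) := isCompact_closedBall z0 r
    have h1 := (EquicontinuousOn.tendsto_uniformOnFun_iff_pi' (𝔖 := {closedBall z0 r})
      (by intro K hK'; rw [mem_singleton_iff.1 hK']; exact hK)
      (by intro K hK'; rw [mem_singleton_iff.1 hK']; exact hE) U G).2 (by
        rw [tendsto_pi_nhds]
        rintro ⟨x, hx⟩
        rw [sUnion_singleton] at hx
        exact hG x (hb (closedBall_subset_closedBall (by linarith) hx)))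
    rw [UniformOnFun.tendsto_iff_tendstoUniformlyOn] at h1
    have h2 := h1 (closedBall z0 r) (mem_singleton _) u hu
    exact ⟨closedBall z0 r, mem_nhdsWithin_of_mem_nhds (closedBall_mem_nhds z0 hr), h2⟩
  exact key.differentiableOn (Eventually.of_forall hd) hS

end Pool.Agent.W303.GL.AN
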